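import Pool.Agent.H.MP_cc5ceb_lc.A

/-! Every language accepted by a (deterministic) modular real-time trellis automaton is accepted
by one with a regular (top-down) labelling. -/

namespace Pool.Agent.Results.MP_cc5ceb_lc.Incl

open Pool.Agent.H.MP_bd4c56_lc Pool.Agent.H.MP_4cfe6b_lc Pool.Agent.H.MP_cc5ceb_lc

/-- The map `π` on rows: `π (d₁ ⋯ dₛ) = l d₁, h d₁ d₂, …, h dₛ₋₁ dₛ, r dₛ`. -/
def pi {D : Type} (l r : D → D) (h : D → D → D) (L : List D) : List D :=
  (L.head?.map l).toList ++ List.zipWith h L L.tail ++ (L.getLast?.map r).toList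

/-- Regular labellings: level `m`, that is `T 0 m, T 1 (m-1), …, T m 0`, reads `π^m a`. -/
def Regular {D : Type} (T : ℕ → ℕ → D) : Prop :=
  ∃ (l r : D → D) (h : D → D → D) (a : D), ∀ m,
    (pi l r h)^[m] [a] = (List.range (m + 1)).map fun k => T k (m - k)

/-- `out T g ι w t i j` is the output of the node `(i, j)` lying `t` levels above the input level
(`none` is the symbol λ). -/
def out {S D G : Type} (T : ℕ → ℕ → D) (g : D → Option G → Option G → G) (ι : S → G)
    (w : List S) : ℕ → ℕ → ℕ → G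
  | 0, i, j => g (T i j) none (w[i]?.map ι)
  | t + 1, i, j => g (T i j) (some (out T g ι w t i (j + 1))) (some (out T g ι w t (i + 1) j))

/-- The accepted language. -/
def lang {S D G : Type} (T : ℕ → ℕ → D) (g : D → Option G → Option G → G) (ι : S → G)
    (G0 : Set G) : Set (List S) :=
  {w | w ≠ [] ∧ out T g ι w (w.length - 1) 0 0 ∈ G0}

theorem pi_row {D : Type} (l r : D → D) (h : D → D → D) (f : ℕ → D) (m : ℕ) :
    pi l r h ((List.range (m + 1)).map f) = (List.range (m + 1 + 1)).map fun k =>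
      if k = 0 then l (f 0) else if k = m + 1 then r (f m) else h (f (k - 1)) (f k) := by
  have e1 : ((List.range (m + 1)).map f).head? = some (f 0) := by
    simp [List.range_succ_eq_map]
  have e2 : ((List.range (m + 1)).map f).getLast? = some (f m) := by
    simp [List.range_succ]
  have e3 : List.zipWith h ((List.range (m + 1)).map f) ((List.range (m + 1)).map f).tail =
      (List.range m).map fun k => h (f k) (f (k + 1)) := by
    apply List.ext_getElem
    · simp
    · intro k h1 h2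
      simp
  rw [pi, e1, e2, e3, List.range_succ (n := m + 1), List.range_succ_eq_map]
  simp only [Option.map_some, Option.toList_some, List.map_append, List.map_cons, List.map_map,
    List.map_nil, if_true, List.cons_append, List.nil_append, Nat.succ_ne_zero, if_false,
    List.cons.injEq, true_and, List.append_cancel_right_eq]
  refine List.map_congr_left fun k hk => ?_
  have : k ≠ m := by have := List.mem_range.1 hk; omega
  simp [this]

theorem regular_of_det {D : Type} (Φ : ℕ → ℕ → D)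
    (hl : ∀ y y', Φ 0 y = Φ 0 y' → Φ 0 (y + 1) = Φ 0 (y' + 1))
    (hr : ∀ x x', Φ x 0 = Φ x' 0 → Φ (x + 1) 0 = Φ (x' + 1) 0) (hh : Det Φ) : Regular Φ := by
  classical
  let l : D → D := fun d => if h : ∃ y, Φ 0 y = d then Φ 0 (h.choose + 1) else d
  let r : D → D := fun d => if h : ∃ x, Φ x 0 = d then Φ (h.choose + 1) 0 else d
  let h : D → D → D := fun d e =>
    if h : ∃ z : ℕ × ℕ, Φ z.1 (z.2 + 1) = d ∧ Φ (z.1 + 1) z.2 = e then
      Φ (h.choose.1 + 1) (h.choose.2 + 1) else d
  have k1 : ∀ y, l (Φ 0 y) = Φ 0 (y + 1) := fun y => by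
    have hh : ∃ y', Φ 0 y' = Φ 0 y := ⟨y, rfl⟩
    simp only [l, dif_pos hh]
    exact hl _ _ hh.choose_spec
  have k2 : ∀ x, r (Φ x 0) = Φ (x + 1) 0 := fun x => by
    have hh : ∃ x', Φ x' 0 = Φ x 0 := ⟨x, rfl⟩
    simp only [r, dif_pos hh]
    exact hr _ _ hh.choose_spec
  have k3 : ∀ x y, h (Φ x (y + 1)) (Φ (x + 1) y) = Φ (x + 1) (y + 1) := fun x y => by
    have h' : ∃ z : ℕ × ℕ, Φ z.1 (z.2 + 1) = Φ x (y + 1) ∧ Φ (z.1 + 1) z.2 = Φ (x + 1) y :=
      ⟨(x, y), rfl, rfl⟩
    simp only [h, dif_pos h']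
    exact hh _ _ _ _ h'.choose_spec.1 h'.choose_spec.2
  refine ⟨l, r, h, Φ 0 0, fun m => ?_⟩
  induction m with
  | zero => rfl
  | succ m ih =>
    rw [Function.iterate_succ_apply', ih, pi_row]
    refine List.map_congr_left fun k hk => ?_
    have hk' := List.mem_range.1 hk
    rcases k with _ | k
    · simp [k1]
    by_cases e : k = m
    · subst e
      simp [k2]
    · obtain ⟨y, rfl⟩ : ∃ y, m = k + y + 1 := ⟨m - k - 1, by omega⟩
      rw [if_neg (by omega), if_neg (by omega)]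
      have e1 : k + y + 1 + 1 - (k + 1) = y + 1 := by omega
      have e2 : k + y + 1 - (k + 1 - 1) = y + 1 := by omega
      have e3 : k + y + 1 - (k + 1) = y := by omega
      rw [e1, e2, e3]
      exact k3 k y

section sim

variable {K : Type}

def pick (ch : K → ℕ → K) (p : ℕ) (ω : K × K) (i : ℕ) : K :=
  if i < p then ch ω.1 i else ch ω.2 (i - p)

open Classical in
noncomputable def mk (ch : K → ℕ → K) (p d : ℕ) (c : Prop) (ω : K × K) : K × K :=
  (pick ch p ω (d + if c then 1 else 0), pick ch p ω (d + (if c then 1 else 0) + 1))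

def om (p : ℕ) (F : ℕ → K) (x e : ℕ) : K × K := (F (x / p ^ e), F (x / p ^ e + 1))

theorem dig (p x y : ℕ) : p * (x / p ^ (y + 1)) + x / p ^ y % p = x / p ^ y := by
  rw [pow_succ, ← Nat.div_div_eq_div_mul, Nat.div_add_mod]

theorem mk_spec {ch : K → ℕ → K} {p : ℕ} (hp : 2 ≤ p) {F : ℕ → K}
    (h : ∀ u, ∀ a < p, ch (F u) a = F (p * u + a)) (x y : ℕ) :
    mk ch p (x / p ^ y % p) (p ^ y ∣ x + 1) (om p F x (y + 1)) = om p F (x + 1) y := by
  have e : ∀ u, ∀ i < 2 * p, pick ch p (F u, F (u + 1)) i = F (p * u + i) := by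
    intro u i hi
    rw [pick]
    split_ifs with h1
    · exact h _ _ h1
    · rw [h _ _ (by omega), Nat.mul_succ]
      congr 1
      omega
  have h1 := Nat.mod_lt (x / p ^ y) (show 0 < p by omega)
  have h2 := dig p x y
  rw [mk, om, om]
  by_cases hd : p ^ y ∣ x + 1
  · rw [if_pos hd, e _ _ (by omega), e _ _ (by omega), Nat.succ_div_of_dvd hd, ← h2]
    simp only [h2, ← add_assoc]
  · rw [if_neg hd, e _ _ (by omega), e _ _ (by omega), Nat.succ_div_of_not_dvd hd]
    simp only [add_zero, h2, ← add_assoc]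

abbrev St (K G : Type) : Type :=
  (K × K → K) × (K × K → K × K) × (K × K → K) × (K × K → K × K) × (K × K → K × K → G) × Prop

variable {S D G : Type} (p q : ℕ) (C : ℕ → ℕ → K) (τ : K → D) (g : D → Option G → Option G → G)
  (ι : S → G)

open Classical in
noncomputable def lab (z : LT p q K) (k1 k2 : K) : D :=
  τ (z.2.2.2.2.2.2.2.2 (if z.2.1 then k1 else k2))

noncomputable def ch1 (k : K) (a : ℕ) : K := dsc p q C 1 a 0 k

noncomputable def ch2 (k : K) (b : ℕ) : K := dsc p q C 1 0 b k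

noncomputable def base (z : LT p q K) (a : Option S) : St K G :=
  (Prod.fst, id, Prod.fst, id, fun ω1 ω2 => g (lab p q τ z ω1.1 ω2.1) none (a.map ι), True)

open Classical in
noncomputable def d1 (z : LT p q K) (s : St K G) : K × K → K × K :=
  if s.2.2.2.2.2 then mk (ch1 p q C) p z.2.2.1.val z.2.2.2.2.1 else s.2.1

open Classical in
noncomputable def d2 (z : LT p q K) (s : St K G) : K × K → K × K :=
  if s.2.2.2.2.2 then mk (ch2 p q C) q z.2.2.2.1.val z.2.2.2.2.2.1 else s.2.2.2.1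

noncomputable def step (z : LT p q K) (s1 s2 : St K G) : St K G :=
  (fun ω => ch1 p q C (s1.1 ω) z.2.2.1.val, d1 p q C z s1,
    fun ω => ch2 p q C (s2.2.2.1 ω) z.2.2.2.1.val, d2 p q C z s2,
    fun ω1 ω2 => g (lab p q τ z (ch1 p q C (s1.1 ω1) z.2.2.1.val)
      (ch2 p q C (s2.2.2.1 ω2) z.2.2.2.1.val)) (some (s1.2.2.2.2.1 ω1 (d2 p q C z s2 ω2)))
      (some (s2.2.2.2.2.1 (d1 p q C z s1 ω1) ω2)), False)

noncomputable def tr (z : LT p q K) : Option (S ⊕ St K G) → Option (S ⊕ St K G) → S ⊕ St K G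
  | none, v => .inr (base p q τ g ι z (v.bind Sum.getLeft?))
  | some (.inr s1), some (.inr s2) => .inr (step p q C τ g z s1 s2)
  | _, _ => .inr (base p q τ g ι z none)

variable {p q C τ}

theorem inv (hp : 2 ≤ p) (hq : 2 ≤ q) (hC : Closed p q C) {T : ℕ → ℕ → D}
    (hτ : ∀ a b, τ (C a b) = T a b) (w : List S) : ∀ t x y, ∃ s : St K G,
      out (Lab p q C) (tr p q C τ g ι) Sum.inl w t x y = .inr s ∧
      s.1 (om p (fun u => C u 0) x (y + t)) = C (x / p ^ y) 0 ∧
      s.2.2.1 (om q (fun u => C 0 u) y (x + t)) = C 0 (y / q ^ x) ∧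
      (s.2.2.2.2.2 ↔ t = 0) ∧
      (∀ t', t = t' + 1 →
        s.2.1 (om p (fun u => C u 0) x (y + t)) = om p (fun u => C u 0) (x + 1) (y + t') ∧
        s.2.2.2.1 (om q (fun u => C 0 u) y (x + t)) = om q (fun u => C 0 u) (y + 1) (x + t')) ∧
      s.2.2.2.2.1 (om p (fun u => C u 0) x (y + t)) (om q (fun u => C 0 u) y (x + t)) =
        out T g ι w t x y := by
  have : NeZero p := ⟨by omega⟩
  have : NeZero q := ⟨by omega⟩
  have c1 : ∀ u, ∀ a < p, ch1 p q C (C u 0) a = C (p * u + a) 0 := fun u a ha => by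
    simp [ch1, dsc_C hp hq hC, Nat.mod_eq_of_lt ha]
  have c2 : ∀ u, ∀ a < q, ch2 p q C (C 0 u) a = C 0 (q * u + a) := fun u a ha => by
    simp [ch2, dsc_C hp hq hC, Nat.mod_eq_of_lt ha]
  have hl : ∀ x y, lab p q τ (Lab p q C x y) (C (x / p ^ y) 0) (C 0 (y / q ^ x)) = T x y := by
    intro x y
    simp only [lab, Lab]
    by_cases h : y ≤ x
    · rw [if_pos h, min_eq_right h, dsc_C hp hq hC, Nat.div_add_mod, self_mod hq le_rfl, hτ]
      simp
    · rw [if_neg h, min_eq_left (by omega), dsc_C hp hq hC, Nat.div_add_mod, self_mod hp le_rfl, hτ]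
      simp
  intro t
  induction t with
  | zero =>
    intro x y
    refine ⟨_, rfl, rfl, rfl, by simp [base], fun t' h => by omega, ?_⟩
    have e : (w[x]?.map (Sum.inl : S → S ⊕ St K G)).bind Sum.getLeft? = w[x]? := by
      cases w[x]? <;> rfl
    simp only [base, om, add_zero, hl, e, out]
  | succ t ih =>
    intro x y
    obtain ⟨s1, a0, a1, -, a3, a4, a5⟩ := ih x (y + 1)
    obtain ⟨s2, b0, -, b2, b3, b4, b5⟩ := ih (x + 1) y
    have e1 : y + 1 + t = y + (t + 1) := by omega
    have e2 : x + 1 + t = x + (t + 1) := by omega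
    rw [e1] at a1 a4 a5
    rw [e2] at b2 b4 b5
    have v1 : (Lab p q C x y).2.2.1.val = x / p ^ y % p := ZMod.val_natCast _ _
    have v2 : (Lab p q C x y).2.2.2.1.val = y / q ^ x % q := ZMod.val_natCast _ _
    have f1 : ch1 p q C (s1.1 (om p (fun u => C u 0) x (y + (t + 1))))
        (Lab p q C x y).2.2.1.val = C (x / p ^ y) 0 := by
      rw [a1, v1, c1 _ _ (Nat.mod_lt _ (by omega)), dig]
    have f2 : ch2 p q C (s2.2.2.1 (om q (fun u => C 0 u) y (x + (t + 1))))
        (Lab p q C x y).2.2.2.1.val = C 0 (y / q ^ x) := by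
      rw [b2, v2, c2 _ _ (Nat.mod_lt _ (by omega)), dig]
    have f3 : d1 p q C (Lab p q C x y) s1 (om p (fun u => C u 0) x (y + (t + 1))) =
        om p (fun u => C u 0) (x + 1) (y + t) := by
      rcases t with _ | t
      · rw [d1, if_pos (a3.2 rfl), v1]
        exact mk_spec hp c1 x y
      · rw [d1, if_neg (fun h => by simpa using a3.1 h), (a4 t rfl).1]
        congr 1
        omega
    have f4 : d2 p q C (Lab p q C x y) s2 (om q (fun u => C 0 u) y (x + (t + 1))) =
        om q (fun u => C 0 u) (y + 1) (x + t) := by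
      rcases t with _ | t
      · rw [d2, if_pos (b3.2 rfl), v2]
        exact mk_spec hq c2 y x
      · rw [d2, if_neg (fun h => by simpa using b3.1 h), (b4 t rfl).2]
        congr 1
        omega
    refine ⟨step p q C τ g (Lab p q C x y) s1 s2, by rw [out, a0, b0]; rfl, f1, f2, by simp [step],
      fun t' h => ?_, ?_⟩
    · obtain rfl : t = t' := by omega
      exact ⟨f3, f4⟩
    · simp only [step]
      rw [f1, f2, f3, f4, a5, b5, hl, out]

end sim

theorem result (S D G : Type) [Fintype S] [Fintype D] [Fintype G] (ι : S ↪ G) (T : ℕ → ℕ → D)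
    (hT : Modular T) (g : D → Option G → Option G → G) (G0 : Set G) :
    ∃ (D' G' : Type) (_ : Fintype D') (_ : Fintype G') (ι' : S ↪ G') (T' : ℕ → ℕ → D')
      (g' : D' → Option G' → Option G' → G') (G0' : Set G'), Regular T' ∧
      lang T' g' ι' G0' = lang T g ι G0 := by
  obtain ⟨p, q, K, _, C, τ, hp, hq, hC, hD, hτ⟩ := modular_det hT
  have : NeZero p := ⟨by omega⟩
  have : NeZero q := ⟨by omega⟩
  have i1 : Finite (LT p q K) := inferInstance
  have i2 : Finite (St K G) := inferInstance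
  refine ⟨LT p q K, S ⊕ St K G, Fintype.ofFinite _, Fintype.ofFinite _,
    ⟨Sum.inl, Sum.inl_injective⟩, Lab p q C, tr p q C τ g ι,
    {z | ∃ s, z = .inr s ∧ s.2.2.2.2.1 (C 0 0, C 1 0) (C 0 0, C 0 1) ∈ G0},
    regular_of_det _ (fun y y' h => ?_) (fun x x' h => ?_) (fun x y x' y' h1 h2 => ?_), ?_⟩
  · rw [Lab_iff hp hq hC] at h ⊢
    exact h.right0 hp
  · rw [Lab_iff hp hq hC] at h ⊢
    exact (h.flip.right0 hq).flip
  · rw [Lab_iff hp hq hC] at h1 h2 ⊢
    exact h1.inner hp hq hD h2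
  ext w
  refine and_congr_right fun _ => ?_
  obtain ⟨s, h0, -, -, -, -, h1⟩ := inv g ι hp hq hC hτ w (w.length - 1) 0 0
  change out (Lab p q C) (tr p q C τ g ι) Sum.inl w _ 0 0 ∈ _ ↔ _
  simp only [om, Nat.zero_div, zero_add] at h1
  rw [h0, ← h1]
  exact ⟨fun ⟨s', e1, e2⟩ => (Sum.inr.inj e1) ▸ e2, fun h => ⟨s, rfl, h⟩⟩

end Pool.Agent.Results.MP_cc5ceb_lc.Incl
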